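import Pool.Agent.W555.KS.Defs2

set_option autoImplicit false

/-! # KS-G1: non-allowed monomials are in the generic initial ideal -/

namespace Pool.Agent.W460.KS

open Finset MvPolynomial Pool.Agent.W555.KS

variable {n : ℕ} {k : Type*} [Field k]

theorem lf_homog (c : Fin n → k) : (lf c).IsHomogeneous 1 := by
  unfold lf
  refine IsHomogeneous.sum _ _ _ fun v _ => ?_
  have := (isHomogeneous_C (Fin n) (c v)).mul (isHomogeneous_X k v)
  rwa [zero_add] at this

theorem subst_homog (g : Fin n × Fin n → k) {p : MvPolynomial (Fin n) k} {r : ℕ}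
    (hp : p.IsHomogeneous r) : (subst g p).IsHomogeneous r := by
  have := hp.aeval (fun i => lf (fun j => g (i, j))) (fun i => lf_homog _)
  rwa [one_mul] at this

theorem subst_X (g : Fin n × Fin n → k) (i : Fin n) : subst g (X i) = lf (fun j => g (i, j)) := by
  unfold subst
  rw [aeval_X]

theorem subst_component (g : Fin n × Fin n → k) (p : MvPolynomial (Fin n) k) (r : ℕ) :
    homogeneousComponent r (subst g p) = subst g (homogeneousComponent r p) := by
  conv_lhs => rw [← sum_homogeneousComponent p]
  rw [map_sum, map_sum]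
  have h1 : ∀ i, homogeneousComponent r (subst g (homogeneousComponent i p)) =
      if r = i then subst g (homogeneousComponent i p) else 0 := by
    intro i
    exact homogeneousComponent_of_mem (subst_homog g (homogeneousComponent_isHomogeneous i p))
  rw [Finset.sum_congr rfl fun i _ => h1 i, Finset.sum_ite_eq]
  split_ifs with h2
  · rfl
  · have h3 : homogeneousComponent r p = 0 := by
      apply homogeneousComponent_eq_zero
      rw [Finset.mem_range] at h2
      omega
    rw [h3, map_zero]

theorem subst_surj (g : Fin n × Fin n → k) (hg : (Matrix.of (fun i j => g (i, j))).det ≠ 0) :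
    Function.Surjective (subst g) := by
  set G : Matrix (Fin n) (Fin n) k := Matrix.of (fun i j => g (i, j)) with hG
  have hu : IsUnit G.det := isUnit_iff_ne_zero.mpr hg
  have h1 : (subst g).comp (subst (fun ij => G⁻¹ ij.1 ij.2)) = AlgHom.id k _ := by
    apply MvPolynomial.algHom_ext
    intro i
    rw [AlgHom.comp_apply, subst_X]
    unfold lf
    rw [map_sum]
    have h2 : ∀ j, subst g (C (G⁻¹ i j) * X j) = ∑ l, C (G⁻¹ i j * G j l) * X l := by
      intro j
      rw [map_mul, subst_X]
      have : subst g (C (G⁻¹ i j)) = C (G⁻¹ i j) := by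
        unfold subst
        rw [aeval_C]
        rfl
      rw [this]
      unfold lf
      rw [Finset.mul_sum]
      refine Finset.sum_congr rfl fun l _ => ?_
      rw [C_mul, mul_assoc]
      rfl
    simp only [h2]
    rw [Finset.sum_comm]
    have h3 : ∀ l, ∑ j, C (G⁻¹ i j * G j l) * (X l : MvPolynomial (Fin n) k) =
        C ((G⁻¹ * G) i l) * X l := by
      intro l
      rw [← Finset.sum_mul, ← map_sum, Matrix.mul_apply]
    simp only [h3]
    rw [Matrix.nonsing_inv_mul G hu]
    simp [Matrix.one_apply]
  intro p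
  exact ⟨subst (fun ij => G⁻¹ ij.1 ij.2) p, by
    have := congrArg (fun φ => φ p) h1
    simpa using this⟩

theorem srI_eq (L : Finset (Finset (Fin n))) : srI k L =
    Ideal.span ((fun s => monomial s (1 : k)) ''
      {s | ∃ σ : Finset (Fin n), σ ∉ L ∧ s = ∑ v ∈ σ, Finsupp.single v 1}) := by
  unfold srI
  congr 1
  ext p
  simp only [Set.mem_ofPred_eq, Set.mem_image]
  have h1 : ∀ σ : Finset (Fin n), (∏ v ∈ σ, X v : MvPolynomial (Fin n) k) =
      monomial (∑ v ∈ σ, Finsupp.single v 1) 1 := by
    intro σ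
    rw [MvPolynomial.monomial_sum_one]
    rfl
  constructor
  · rintro ⟨σ, hσ, rfl⟩
    exact ⟨_, ⟨σ, hσ, rfl⟩, (h1 σ).symm⟩
  · rintro ⟨s, ⟨σ, hσ, rfl⟩, rfl⟩
    exact ⟨σ, hσ, (h1 σ).symm⟩

theorem srI_component (L : Finset (Finset (Fin n))) {p : MvPolynomial (Fin n) k} (hp : p ∈ srI k L)
    (r : ℕ) : homogeneousComponent r p ∈ srI k L := by
  rw [srI_eq, mem_ideal_span_monomial_image] at hp ⊢
  intro s hs
  apply hp
  rw [mem_support_iff, coeff_homogeneousComponent] at hs
  rw [mem_support_iff]
  intro h
  rw [h] at hs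
  simp at hs

/-- the comparison of monomials -/
theorem revLT_aux {n d r : ℕ} (m' m'' μ : Fin n →₀ ℕ) (w : Fin n) (hw : (w : ℕ) + d + 1 = n)
    (hm0 : ∀ i : Fin n, n ≤ (i : ℕ) + d → m' i = 0) (hmw : m' w < 2 * r - d)
    (hdeg : μ.degree = m'.degree)
    (hbad : (∃ i : Fin n, n ≤ (i : ℕ) + d ∧ μ i ≠ 0) ∨ 2 * r - d ≤ μ w) :
    RevLT (m'' + μ) (m'' + m') := by
  right
  refine ⟨by rw [map_add, map_add, hdeg], ?_⟩
  simp only [Finsupp.add_apply]
  by_cases hA : ∃ i : Fin n, n ≤ (i : ℕ) + d ∧ μ i ≠ 0
  · obtain ⟨i0, hi0, hi0'⟩ := hA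
    have hne : μ.support.Nonempty := ⟨i0, Finsupp.mem_support_iff.mpr hi0'⟩
    refine ⟨μ.support.max' hne, ?_, ?_⟩
    · have h1 : i0 ≤ μ.support.max' hne := Finset.le_max' _ _ (Finsupp.mem_support_iff.mpr hi0')
      have h2 : n ≤ ((μ.support.max' hne : Fin n) : ℕ) + d := by
        have : (i0 : ℕ) ≤ ((μ.support.max' hne : Fin n) : ℕ) := h1
        omega
      rw [hm0 _ h2]
      have h3 := Finsupp.mem_support_iff.mp (Finset.max'_mem _ hne)
      omega
    · intro i hi
      have h1 : i0 ≤ μ.support.max' hne := Finset.le_max' _ _ (Finsupp.mem_support_iff.mpr hi0')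
      have h2 : n ≤ (i : ℕ) + d := by
        have h3 : (i0 : ℕ) ≤ ((μ.support.max' hne : Fin n) : ℕ) := h1
        have h4 : ((μ.support.max' hne : Fin n) : ℕ) < (i : ℕ) := hi
        omega
      have h5 : μ i = 0 := by
        by_contra h6
        exact absurd (Finset.le_max' _ _ (Finsupp.mem_support_iff.mpr h6)) (not_le.mpr hi)
      rw [hm0 i h2, h5]
  · push Not at hA
    have hB : 2 * r - d ≤ μ w := by
      rcases hbad with ⟨i, hi, hi'⟩ | h
      · exact absurd (hA i hi) hi'
      · exact h
    refine ⟨w, by omega, ?_⟩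
    intro i hi
    have h4 : (w : ℕ) < (i : ℕ) := hi
    rw [hm0 i (by omega), hA i (by omega)]

theorem g1 (hs : StSpec) : StG1 := by
  classical
  intro k _ _ n d L hdn hL hE m hm
  set r : ℕ := ∑ i ∈ (univ : Finset (Fin n)).filter (fun i : Fin n => (i : ℕ) + d < n), m i with hr
  let w : Fin n := ⟨n - d - 1, by omega⟩
  have hw : (w : ℕ) + d + 1 = n := by simp only [w]; omega
  have hm1 : d + m w < 2 * r := by
    unfold Allowed at hm
    rw [not_le] at hm
    have h1 : (univ : Finset (Fin n)).filter (fun i : Fin n => (i : ℕ) + d + 1 = n) = {w} := by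
      ext i
      simp only [Finset.mem_filter, Finset.mem_univ, true_and, Finset.mem_singleton]
      constructor
      · intro h
        apply Fin.ext
        omega
      · rintro rfl
        exact hw
    rw [h1, Finset.sum_singleton] at hm
    exact hm
  obtain ⟨F, hF, hF'⟩ := hs n d L hL hE r (by omega)
  let row : Fin (d + 1) → Fin n := fun i => ⟨n - 1 - i, by omega⟩
  have hrow : Function.Injective row := by
    intro i j hij
    have := congrArg Fin.val hij
    simp only [row] at this
    apply Fin.ext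
    omega
  let ρ : Fin (d + 1) × Fin n → Fin n × Fin n := fun p => (row p.1, p.2)
  have hρ : Function.Injective ρ := by
    rintro ⟨i, v⟩ ⟨j, u⟩ h
    have h1 : row i = row j := congrArg Prod.fst h
    have h2 : v = u := congrArg Prod.snd h
    rw [hrow h1, h2]
  refine ⟨rename ρ (map (Int.castRingHom k) F), ?_, ?_⟩
  · intro h
    apply hF
    have h1 : map (Int.castRingHom k) F = 0 := rename_injective ρ hρ (by rw [h, map_zero])
    exact map_injective (Int.castRingHom k) (RingHom.injective_int _) (by rw [h1, map_zero])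
  intro g hg hgF
  have hF2 := hF' k (fun p => g (ρ p)) (by
    rw [eval_rename, eval_map] at hgF
    rw [aeval_def]
    exact hgF)
  -- the two parts of `m`
  set m' : Fin n →₀ ℕ := m.filter (fun i => (i : ℕ) + d < n) with hm'
  set m'' : Fin n →₀ ℕ := m.filter (fun i => ¬ (i : ℕ) + d < n) with hm''
  have hmm : m'' + m' = m := by
    rw [add_comm]
    exact Finsupp.filter_add_filter_not m _
  have hdeg' : m'.degree = r := by
    rw [Finsupp.degree_eq_sum, hr, Finset.sum_filter]
    refine Finset.sum_congr rfl fun i _ => ?_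
    rw [hm', Finsupp.filter_apply]
  have hm0 : ∀ i : Fin n, n ≤ (i : ℕ) + d → m' i = 0 := by
    intro i hi
    rw [hm', Finsupp.filter_apply, if_neg (by omega)]
  have hmw : m' w < 2 * r - d := by
    rw [hm', Finsupp.filter_apply, if_pos (by omega)]
    omega
  -- the monomial ideal
  let S : Set (Fin n →₀ ℕ) := {s | (∃ i : Fin d, s = Finsupp.single (row i.castSucc) 1) ∨
    s = Finsupp.single w (2 * r - d)}
  set J0 : Ideal (MvPolynomial (Fin n) k) := Ideal.span ((fun s => monomial s (1 : k)) '' S) with hJ0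
  have hroww : row (Fin.last d) = w := by
    apply Fin.ext
    simp only [row, w, Fin.val_last]
    omega
  have hbad : ∀ t ∈ J0, ∀ μ ∈ t.support, (∃ i : Fin n, n ≤ (i : ℕ) + d ∧ μ i ≠ 0) ∨
      2 * r - d ≤ μ w := by
    intro t ht μ hμ
    rw [hJ0, mem_ideal_span_monomial_image] at ht
    obtain ⟨s, hsS, hsμ⟩ := ht μ hμ
    rcases hsS with ⟨i, rfl⟩ | rfl
    · left
      refine ⟨row i.castSucc, ?_, ?_⟩
      · simp only [row, Fin.val_castSucc]
        omega
      · have := hsμ (row i.castSucc)
        rw [Finsupp.single_eq_same] at this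
        omega
    · right
      have := hsμ w
      rw [Finsupp.single_eq_same] at this
      exact this
  have hsurj := subst_surj g hg
  have hmem : subst g (monomial m' 1) ∈ srI k L ⊔ Ideal.map (subst g) J0 := by
    have h1 := hF2 (subst g (monomial m' 1)) (subst_homog g (isHomogeneous_monomial _ hdeg'))
    have h2 : Ideal.span (Set.range (fun i : Fin d => lf (fun v => g (ρ (i.castSucc, v))))) ≤
        Ideal.map (subst g) J0 := by
      rw [Ideal.span_le]
      rintro _ ⟨i, rfl⟩
      change lf (fun v => g (row i.castSucc, v)) ∈ Ideal.map (subst g) J0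
      rw [← subst_X]
      refine Ideal.mem_map_of_mem _ (Ideal.subset_span ⟨_, Or.inl ⟨i, rfl⟩, rfl⟩)
    have h3 : Ideal.span {lf (fun v => g (ρ (Fin.last d, v))) ^ (2 * r - d)} ≤
        Ideal.map (subst g) J0 := by
      rw [Ideal.span_le, Set.singleton_subset_iff]
      change lf (fun v => g (row (Fin.last d), v)) ^ (2 * r - d) ∈ Ideal.map (subst g) J0
      rw [hroww, ← subst_X, ← map_pow]
      refine Ideal.mem_map_of_mem _ (Ideal.subset_span ⟨_, Or.inr rfl, ?_⟩)
      rw [X_pow_eq_monomial]
    exact (sup_le (sup_le le_sup_left (h2.trans le_sup_right)) (h3.trans le_sup_right)) h1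
  obtain ⟨s, hsI, t', ht', hst⟩ := Submodule.mem_sup.mp hmem
  obtain ⟨t, ht, rfl⟩ := (Ideal.mem_map_iff_of_surjective _ hsurj).mp ht'
  set f0 : MvPolynomial (Fin n) k := monomial m' 1 - t with hf0
  have hf0s : subst g f0 = s := by
    rw [hf0, map_sub, ← hst]
    ring
  set fh := homogeneousComponent r f0 with hfh
  have hfhI : subst g fh ∈ srI k L := by
    rw [hfh, ← subst_component, hf0s]
    exact srI_component L hsI r
  have htm' : coeff m' t = 0 := by
    by_contra h
    rcases hbad t ht m' (mem_support_iff.mpr h) with ⟨i, hi, hi'⟩ | h1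
    · exact hi' (hm0 i hi)
    · omega
  refine ⟨monomial m'' 1 * fh, ?_, ?_, ?_⟩
  · change subst g (monomial m'' 1 * fh) ∈ srI k L
    rw [map_mul]
    exact Ideal.mul_mem_left _ _ hfhI
  · rw [← hmm, coeff_monomial_mul, one_mul, hfh, coeff_homogeneousComponent, if_pos hdeg', hf0,
      coeff_sub, coeff_monomial, if_pos rfl, htm', sub_zero]
    exact one_ne_zero
  · intro μ hμ hne
    rw [mem_support_iff, coeff_monomial_mul'] at hμ
    split_ifs at hμ with hle
    · rw [one_mul, hfh, coeff_homogeneousComponent] at hμ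
      split_ifs at hμ with hdegμ
      · set μ' := μ - m'' with hμ'
        have hμμ : m'' + μ' = μ := by
          rw [hμ']
          exact add_tsub_cancel_of_le hle
        have hne' : μ' ≠ m' := by
          intro h
          apply hne
          rw [← hμμ, h, hmm]
        rw [hf0, coeff_sub, coeff_monomial, if_neg (Ne.symm hne'), zero_sub, neg_ne_zero] at hμ
        rw [← hμμ, ← hmm]
        exact revLT_aux m' m'' μ' w hw hm0 hmw (by rw [hdegμ, hdeg'])
          (hbad t ht μ' (mem_support_iff.mpr hμ))
      · exact absurd rfl hμ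
    · exact absurd rfl hμ

end Pool.Agent.W460.KS
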