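import Pool.Agent.W555.KS.Defs

set_option autoImplicit false

/-! # KS-T2C: `A_(q+1) = ω A_q` for `d = 2 q`, via the cone -/

namespace Pool.Agent.W460.KS

open Finset MvPolynomial Pool.Agent.W555.KS

theorem fib_castSucc {n m : ℕ} (g : Fin m → Fin n) (v : Fin n) :
    fib (fun i => (g i).castSucc) v.castSucc = fib g v := by
  unfold fib
  congr 1
  ext i
  simp

theorem fib_last {n m : ℕ} (g : Fin m → Fin n) :
    fib (fun i => (g i).castSucc) (Fin.last n) = 0 := by
  unfold fib
  rw [Finset.card_eq_zero, Finset.filter_eq_empty_iff]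
  intro i _ h
  exact (Fin.castSucc_lt_last (g i)).ne h

theorem evenFun_castSucc {n m : ℕ} (g : Fin m → Fin n) :
    EvenFun (fun i => (g i).castSucc) ↔ EvenFun g := by
  unfold EvenFun
  constructor
  · intro h v
    have := h v.castSucc
    rwa [fib_castSucc] at this
  · intro h v
    refine Fin.lastCases ?_ (fun v => ?_) v
    · rw [fib_last]
      exact Even.zero
    · rw [fib_castSucc]
      exact h v

theorem halfMon_castSucc {R : Type} [CommRing R] {n m : ℕ} (x : Fin n → R) (y : R)
    (g : Fin m → Fin n) :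
    halfMon (Fin.snoc (α := fun _ => R) x y) (fun i => (g i).castSucc) = halfMon x g := by
  unfold halfMon
  rw [Fin.prod_univ_castSucc, fib_last]
  simp only [Fin.snoc_castSucc, Fin.snoc_last, fib_castSucc]
  simp

/-- functions with prescribed fibres -/
theorem exists_fib {n : ℕ} (b : Fin n → ℕ) (m : ℕ) (hb : ∑ v, b v = m) :
    ∃ g : Fin m → Fin n, ∀ v, fib g v = b v := by
  subst hb
  refine ⟨fun i => (finSigmaFinEquiv.symm i).1, fun v => ?_⟩
  unfold fib
  rw [← Fintype.card_subtype]
  have e1 : {i : Fin (∑ v, b v) // (finSigmaFinEquiv.symm i).1 = v} ≃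
      {p : (i : Fin n) × Fin (b i) // p.1 = v} :=
    finSigmaFinEquiv.symm.subtypeEquiv fun i => Iff.rfl
  rw [Fintype.card_congr e1,
    Fintype.card_congr (Equiv.sigmaSubtype (β := fun v => Fin (b v)) v), Fintype.card_fin]

/-- the conclusion of the cone argument for one vertex and one functional -/
theorem key {n q : ℕ} (R : Type) [CommRing R] [Algebra (Kf (2 * q + 1) n) R]
    (hfan : StFan) (hcone : StCone) (h1e : StT1E) (hind : StInd)
    (L : Finset (Finset (Fin n))) (hL : IsCx L) (hE : ConeEmb L (2 * q)) (x : Fin n → R)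
    (hface : ∀ σ, σ ∉ L → ∏ v ∈ σ, x v = 0)
    (hrow : ∀ i : Fin (2 * q + 1), ∑ v, gen (2 * q + 1) n i v • x v = 0)
    (M : R →ₗ[Kf (2 * q + 1) n] Kf (2 * q + 1) n) (v0 : Fin n) (h : Fin (2 * q + 1) → Fin n)
    (hh : EvenFun (Fin.snoc (α := fun _ => Fin n) h v0)) :
    M (halfMon x (Fin.snoc (α := fun _ => Fin n) h v0)) = 0 := by
  classical
  set k := Kf (2 * q + 1) n with hk
  obtain ⟨hL', hE'⟩ := hcone n (2 * q) L hL hE
  have hVK := hfan (n + 1) (2 * q + 1) (coneCx L) hL' hE'
  let x' : Fin (n + 1) → R := Fin.snoc (α := fun _ => R) x (x v0)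
  let a : Fin (2 * q + 1 + 1) → Fin (n + 1) → k :=
    Fin.snoc (α := fun _ => Fin (n + 1) → k)
      (fun i => Fin.snoc (α := fun _ => k) (gen (2 * q + 1) n i) 0)
      (Fin.snoc (α := fun _ => k) (fun v => if v = v0 then 1 else 0) 1)
  have h2 : (2 : R) = 0 := by
    have h3 : (2 : k) = 0 := CharTwo.two_eq_zero
    have h4 := congrArg (algebraMap k R) h3
    rw [map_zero, map_ofNat] at h4
    exact h4
  have e1 := h1e k R (n + 1) (2 * q + 1) (q + 1) 0 (coneCx L) a x' M 0 hL' hVK ?_ ?_ ?_
    (by omega) (by simp)
  · -- the identity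
    have e2 : ∀ g : Fin (2 * q + 1 + 1) → Fin (n + 1), EvenFun g →
        (∏ i, a i (g i)) * M (0 ^ 0 * halfMon x' g) ^ 2 ≠ 0 →
        ∃ h : Fin (2 * q + 1) → Fin n,
          g = fun i => ((Fin.snoc (α := fun _ => Fin n) h v0 : Fin (2 * q + 1 + 1) → Fin n) i).castSucc := by
      intro g hg hne
      have h3 : ∏ i, a i (g i) ≠ 0 := left_ne_zero_of_mul hne
      rw [Finset.prod_ne_zero_iff] at h3
      have h4 : ∀ i : Fin (2 * q + 1), g i.castSucc ≠ Fin.last n := by
        intro i hi
        apply h3 i.castSucc (Finset.mem_univ _)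
        rw [hi]
        simp only [a, Fin.snoc_castSucc, Fin.snoc_last]
      have h5 : g (Fin.last _) ≠ Fin.last n := by
        intro hl
        have h6 : fib g (Fin.last n) = 1 := by
          unfold fib
          rw [Finset.card_eq_one]
          refine ⟨Fin.last _, ?_⟩
          ext i
          simp only [Finset.mem_filter, Finset.mem_univ, true_and, Finset.mem_singleton]
          constructor
          · intro hi
            refine Fin.lastCases (motive := fun i => g i = Fin.last n → i = Fin.last _) ?_ ?_ i hi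
            · intro _; rfl
            · intro j hj
              exact absurd hj (h4 j)
          · rintro rfl
            exact hl
        have h7 := hg (Fin.last n)
        rw [h6] at h7
        exact absurd h7 (by decide)
      have h8 : g (Fin.last _) = v0.castSucc := by
        obtain ⟨w, hw⟩ := Fin.exists_castSucc_eq.mpr h5
        have h9 := h3 (Fin.last _) (Finset.mem_univ _)
        rw [← hw] at h9
        simp only [a, Fin.snoc_last, Fin.snoc_castSucc] at h9
        have h10 : w = v0 := by
          by_contra hne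
          rw [if_neg hne] at h9
          exact h9 rfl
        rw [← hw, h10]
      refine ⟨fun i => (g i.castSucc).castPred (h4 i), ?_⟩
      funext i
      refine Fin.lastCases ?_ (fun j => ?_) i
      · rw [Fin.snoc_last, h8]
      · rw [Fin.snoc_castSucc, Fin.castSucc_castPred]
    let E : (Fin (2 * q + 1) → Fin n) → (Fin (2 * q + 1 + 1) → Fin (n + 1)) := fun h i =>
      ((Fin.snoc (α := fun _ => Fin n) h v0 : Fin (2 * q + 1 + 1) → Fin n) i).castSucc
    have hEinj : Function.Injective E := by
      intro h h' hhh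
      funext i
      have := congrFun hhh i.castSucc
      simp only [E, Fin.snoc_castSucc] at this
      exact Fin.castSucc_injective _ this
    let S0 : Finset (Fin (2 * q + 1) → Fin n) :=
      univ.filter fun h => EvenFun (Fin.snoc (α := fun _ => Fin n) h v0)
    have e3 : ∑ g ∈ (univ : Finset (Fin (2 * q + 1 + 1) → Fin (n + 1))).filter EvenFun,
        (∏ i, a i (g i)) * M (0 ^ 0 * halfMon x' g) ^ 2 =
        ∑ h ∈ S0, (∏ i, gen (2 * q + 1) n i (h i)) *
          M (halfMon x (Fin.snoc (α := fun _ => Fin n) h v0)) ^ 2 := by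
      symm
      have e4 : ∑ h ∈ S0, (∏ i, gen (2 * q + 1) n i (h i)) *
          M (halfMon x (Fin.snoc (α := fun _ => Fin n) h v0)) ^ 2 =
          ∑ g ∈ S0.image E, (∏ i, a i (g i)) * M (0 ^ 0 * halfMon x' g) ^ 2 := by
        rw [Finset.sum_image fun _ _ _ _ hh => hEinj hh]
        refine Finset.sum_congr rfl fun h _ => ?_
        congr 1
        · rw [Fin.prod_univ_castSucc (n := 2 * q + 1)]
          simp only [a, E, Fin.snoc_castSucc, Fin.snoc_last, if_true, mul_one]
        · rw [pow_zero, one_mul]
          congr 2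
          exact (halfMon_castSucc x (x v0) _).symm
      rw [e4]
      refine Finset.sum_subset ?_ ?_
      · intro g hg
        rw [Finset.mem_image] at hg
        obtain ⟨h, hh, rfl⟩ := hg
        rw [Finset.mem_filter]
        refine ⟨Finset.mem_univ _, ?_⟩
        exact (evenFun_castSucc _).mpr (Finset.mem_filter.mp hh).2
      · intro g hg hgn
        by_contra hne
        rw [Finset.mem_filter] at hg
        obtain ⟨h, hh⟩ := e2 g hg.2 hne
        apply hgn
        rw [Finset.mem_image]
        refine ⟨h, ?_, hh.symm⟩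
        rw [Finset.mem_filter]
        refine ⟨Finset.mem_univ _, ?_⟩
        rw [← evenFun_castSucc]
        have := hg.2
        rw [hh] at this
        exact this
    rw [e3] at e1
    -- independence
    let s : (Fin (2 * q + 1) → Fin n) → Finset (Fin (2 * q + 1) × Fin n) := fun h =>
      univ.image fun i => (i, h i)
    have hs : Function.Injective s := by
      intro h h' hhh
      funext i
      have h3 : (i, h i) ∈ s h := Finset.mem_image_of_mem _ (Finset.mem_univ i)
      rw [hhh] at h3
      obtain ⟨j, -, hj⟩ := Finset.mem_image.mp h3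
      have h4 : j = i := congrArg Prod.fst hj
      have h5 : h' j = h i := congrArg Prod.snd hj
      rw [← h5, h4]
    have : Nonempty (Fin (2 * q + 1) → Fin n) := ⟨fun _ => v0⟩
    let c : Finset (Fin (2 * q + 1) × Fin n) → k := fun t =>
      M (halfMon x (Fin.snoc (α := fun _ => Fin n) (Function.invFun s t) v0))
    have hc : ∀ h, c (s h) = M (halfMon x (Fin.snoc (α := fun _ => Fin n) h v0)) := by
      intro h
      simp only [c]
      rw [Function.leftInverse_invFun hs h]
    have e5 := hind (Fin (2 * q + 1) × Fin n) (S0.image s) c (by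
      rw [Finset.sum_image fun _ _ _ _ hh => hs hh]
      rw [← e1]
      refine Finset.sum_congr rfl fun h _ => ?_
      rw [hc]
      congr 1
      rw [map_prod, Finset.prod_image (by
        intro i _ j _ hij
        exact congrArg Prod.fst hij)]
      rfl)
    have e6 := e5 (s h) (Finset.mem_image_of_mem _ (Finset.mem_filter.mpr ⟨Finset.mem_univ _, hh⟩))
    rw [hc] at e6
    exact e6
  · -- faces
    intro σ hσ
    have h3 : (univ.filter (fun i : Fin n => i.castSucc ∈ σ)) ∉ L := by
      intro h4
      exact hσ (Finset.mem_filter.mpr ⟨Finset.mem_univ _, h4⟩)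
    have h4 := hface _ h3
    have h5 : (univ.filter (fun i : Fin n => i.castSucc ∈ σ)).map Fin.castSuccEmb ⊆ σ := by
      intro w hw
      rw [Finset.mem_map] at hw
      obtain ⟨i, hi, rfl⟩ := hw
      exact (Finset.mem_filter.mp hi).2
    rw [← Finset.prod_sdiff h5, Finset.prod_map]
    have h6 : ∏ i ∈ univ.filter (fun i : Fin n => i.castSucc ∈ σ), x' (Fin.castSuccEmb i) = 0 := by
      rw [← h4]
      refine Finset.prod_congr rfl fun i _ => ?_
      simp only [x', Fin.castSuccEmb_apply, Fin.snoc_castSucc]
    rw [h6, mul_zero]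
  · -- rows
    intro i
    rw [Fin.sum_univ_castSucc]
    simp only [a, x', Fin.snoc_castSucc, Fin.snoc_last, zero_smul, add_zero]
    exact hrow i
  · -- the last row
    rw [Fin.sum_univ_castSucc]
    simp only [a, x', Fin.snoc_castSucc, Fin.snoc_last, ite_smul, one_smul, zero_smul,
      Finset.sum_ite_eq', Finset.mem_univ, if_true]
    rw [← two_mul, h2, zero_mul]

theorem t2c (hfan : StFan) (hcone : StCone) (h1e : StT1E) (hind : StInd) : StT2C := by
  classical
  intro n q L hL hE p hp
  set k := Kf (2 * q + 1) n with hk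
  set I : Ideal (MvPolynomial (Fin n) k) := srI k L ⊔
      Ideal.span (Set.range (fun i : Fin (2 * q + 1) => lf (gen (2 * q + 1) n i))) with hI
  let x : Fin n → (MvPolynomial (Fin n) k ⧸ I) := fun v => Ideal.Quotient.mk I (X v)
  have hface : ∀ σ, σ ∉ L → ∏ v ∈ σ, x v = 0 := by
    intro σ hσ
    simp only [x]
    rw [← map_prod, Ideal.Quotient.eq_zero_iff_mem, hI]
    exact Ideal.mem_sup_left (Ideal.subset_span ⟨σ, hσ, rfl⟩)
  have hrow : ∀ i : Fin (2 * q + 1), ∑ v, gen (2 * q + 1) n i v • x v = 0 := by
    intro i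
    have h1 : lf (gen (2 * q + 1) n i) ∈ I := by
      rw [hI]
      exact Ideal.mem_sup_right (Ideal.subset_span ⟨i, rfl⟩)
    rw [← Ideal.Quotient.eq_zero_iff_mem] at h1
    rw [← h1]
    unfold lf
    rw [map_sum]
    refine Finset.sum_congr rfl fun v _ => ?_
    rw [map_mul, Algebra.smul_def]
    rfl
  have hmon : ∀ β : Fin n →₀ ℕ, β.degree = q + 1 → monomial β (1 : k) ∈ I := by
    intro β hβ
    have hsum : ∑ v, 2 * β v = 2 * q + 1 + 1 := by
      rw [← Finset.mul_sum]
      have : ∑ v, β v = β.degree := (Finsupp.degree_eq_sum β).symm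
      rw [this, hβ]
      ring
    obtain ⟨g, hg⟩ := exists_fib (fun v => 2 * β v) (2 * q + 1 + 1) hsum
    have hgs : (Fin.snoc (α := fun _ => Fin n) (fun i : Fin (2 * q + 1) => g i.castSucc)
        (g (Fin.last _))) = g := by
      funext i
      refine Fin.lastCases ?_ (fun j => ?_) i
      · rw [Fin.snoc_last]
      · rw [Fin.snoc_castSucc]
    have hev : EvenFun g := fun v => by
      rw [hg v]
      exact even_two_mul _
    have h1 : halfMon x g = 0 := by
      rw [← Module.forall_dual_apply_eq_zero_iff k]
      intro M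
      have := key (MvPolynomial (Fin n) k ⧸ I) hfan hcone h1e hind L hL hE x hface hrow M
        (g (Fin.last _)) (fun i : Fin (2 * q + 1) => g i.castSucc) (by rw [hgs]; exact hev)
      rw [hgs] at this
      exact this
    rw [← Ideal.Quotient.eq_zero_iff_mem, ← h1]
    unfold halfMon
    simp only [x]
    have h2 : (monomial β (1 : k) : MvPolynomial (Fin n) k) = ∏ v, X v ^ (β v) := by
      rw [MvPolynomial.monomial_eq, map_one, one_mul, Finsupp.prod_fintype]
      intro i
      rw [pow_zero]
    rw [h2, map_prod]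
    refine Finset.prod_congr rfl fun v _ => ?_
    rw [map_pow, hg v, Nat.mul_div_cancel_left _ (by norm_num)]
  rw [← MvPolynomial.support_sum_monomial_coeff p]
  refine Ideal.sum_mem _ fun β hβ => ?_
  have h1 : (monomial β (coeff β p) : MvPolynomial (Fin n) k) = C (coeff β p) * monomial β 1 := by
    rw [MvPolynomial.C_mul_monomial, mul_one]
  rw [h1]
  refine Ideal.mul_mem_left _ _ (hmon β ?_)
  have h2 := hp (MvPolynomial.mem_support_iff.mp hβ)
  rw [Finsupp.degree_eq_weight_one]
  exact h2

end Pool.Agent.W460.KS
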